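import Pool.Agent.Helper58.FS.Defs

/-!
A1, A4, A6: transfer of finiteness of the everywhere locally trivial classes.
-/

namespace Pool.Agent.Helper99.FS

open Pool.Agent.Helper58.FS

/-- Transfer of finiteness along a homomorphism. -/
theorem fin_transfer {A A' : Type*} [AddCommGroup A] [AddCommGroup A'] (E : A →+ A')
    {B Z : AddSubgroup A} {B' Z' : AddSubgroup A'} (h : B'.relIndex Z' ≠ 0)
    (hZ : ∀ z ∈ Z, E z ∈ Z') (hB : (B.relIndex (B'.comap E ⊓ Z)) ≠ 0) : B.relIndex Z ≠ 0 := by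
  have h1 : (B'.comap E).relIndex Z ≠ 0 := by
    rw [AddSubgroup.relIndex_comap]
    intro h0
    refine h (AddSubgroup.relIndex_eq_zero_of_le_right ?_ h0)
    rintro _ ⟨z, hz, rfl⟩
    exact hZ z hz
  have h2 : (B'.comap E ⊓ Z).relIndex Z ≠ 0 := by
    rw [AddSubgroup.inf_relIndex_right]
    exact h1
  exact AddSubgroup.relIndex_ne_zero_trans hB h2

/-- A map to a finite set whose fibres are contained in cosets. -/
theorem fin_of_map {A S : Type*} [AddCommGroup A] [Finite S] {B P : AddSubgroup A} (f : P → S)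
    (hf : ∀ x y : P, f x = f y → (x : A) - y ∈ B) : B.relIndex P ≠ 0 := by
  have hinj : Function.Injective (fun q : P ⧸ B.addSubgroupOf P => f q.out) := by
    intro q q' he
    have h1 := hf _ _ he
    rw [← Quotient.out_eq' q, ← Quotient.out_eq' q']
    apply QuotientAddGroup.eq.mpr
    rw [AddSubgroup.mem_addSubgroupOf]
    have h2 := B.neg_mem h1
    have h3 : (((-(q.out : P) + q'.out : P)) : A) = -((q.out : P) - (q'.out : P) : A) := by
      push_cast
      abel
    rw [h3]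
    exact h2
  have : Finite (P ⧸ B.addSubgroupOf P) := Finite.of_injective _ hinj
  exact AddSubgroup.index_ne_zero_of_finite

variable {G : Type*} [Group G] [TopologicalSpace G]
  (X : Type*) [MulAction G X] {M N : Type*} [AddCommGroup M] [AddCommGroup N]

theorem a1 {H : Subgroup G} {aN : G → N →+ N} {aM : G → M →+ M} (i : N →+ M)
    (hi : Function.Injective i) (he : ∀ g ∈ H, ∀ n, i (aN g n) = aM g (i n)) [Finite M]
    (h : FinSh X aM H) : FinSh X aN H := by
  classical
  unfold FinSh at h ⊢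
  set E : (G → N) →+ (G → M) :=
    { toFun := fun c g => i (c g)
      map_zero' := by funext g; simp
      map_add' := fun c d => by funext g; simp } with hE
  refine fin_transfer E h ?_ ?_
  · rintro c ⟨h1, ⟨U, hU, h2⟩, h3⟩
    refine ⟨fun g hg k hk => ?_, ⟨U, hU, fun g hg u hu => ?_⟩, fun x => ?_⟩
    · change i (c (g * k)) = i (c g) + aM g (i (c k))
      rw [h1 g hg k hk, map_add, he g hg]
    · change i (c (g * u)) = i (c g)
      rw [h2 g hg u hu]
    · obtain ⟨m, hm⟩ := h3 x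
      refine ⟨i m, fun g hg hgx => ?_⟩
      change i (c g) = aM g (i m) - i m
      rw [hm g hg hgx, map_sub, he g hg]
  · have hch : ∀ c : ((Bsh aM H).comap E ⊓ Zsh X aN H : AddSubgroup (G → N)),
        ∃ m : M, ∀ g ∈ H, i ((c : G → N) g) = aM g m - m := fun c => c.2.1
    choose f hf using hch
    refine fin_of_map f fun x y hxy => ?_
    refine ⟨0, fun g hg => ?_⟩
    have h1 := hf x g hg
    have h2 := hf y g hg
    rw [hxy] at h1
    have h3 : i ((x : G → N) g) = i ((y : G → N) g) := by rw [h1, h2]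
    have h4 := hi h3
    simp [h4]

theorem a4 {H : Subgroup G} {a : G → M →+ M} (σ : G) [IsTopologicalGroup G]
    (h : FinSh X a H) :
    FinSh X (fun g => a (σ⁻¹ * g * σ)) (H.map (MulAut.conj σ).toMonoidHom) := by
  classical
  unfold FinSh at h ⊢
  have hmem : ∀ g ∈ H, σ * g * σ⁻¹ ∈ H.map (MulAut.conj σ).toMonoidHom := by
    intro g hg
    exact ⟨g, hg, rfl⟩
  have hmem' : ∀ g ∈ H.map (MulAut.conj σ).toMonoidHom, σ⁻¹ * g * σ ∈ H := by
    rintro _ ⟨g, hg, rfl⟩
    have : σ⁻¹ * (MulAut.conj σ).toMonoidHom g * σ = g := by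
      change σ⁻¹ * (σ * g * σ⁻¹) * σ = g
      group
    rw [this]
    exact hg
  set E : (G → M) →+ (G → M) :=
    { toFun := fun c g => c (σ * g * σ⁻¹)
      map_zero' := by funext g; simp
      map_add' := fun c d => by funext g; simp } with hE
  refine fin_transfer E h ?_ ?_
  · rintro c ⟨h1, ⟨U, hU, h2⟩, h3⟩
    refine ⟨fun g hg k hk => ?_, ⟨U.comap (MulAut.conj σ).toMonoidHom, ?_, fun g hg u hu => ?_⟩,
      fun x => ?_⟩
    · change c (σ * (g * k) * σ⁻¹) = c (σ * g * σ⁻¹) + a g (c (σ * k * σ⁻¹))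
      have h4 := h1 _ (hmem g hg) _ (hmem k hk)
      have e1 : σ * g * σ⁻¹ * (σ * k * σ⁻¹) = σ * (g * k) * σ⁻¹ := by group
      have e2 : σ⁻¹ * (σ * g * σ⁻¹) * σ = g := by group
      rw [e1] at h4
      simp only [e2] at h4
      exact h4
    · have hc : Continuous fun g : G => σ * g * σ⁻¹ := by fun_prop
      exact hU.preimage hc
    · change c (σ * (g * u) * σ⁻¹) = c (σ * g * σ⁻¹)
      have e1 : σ * (g * u) * σ⁻¹ = σ * g * σ⁻¹ * (σ * u * σ⁻¹) := by group
      rw [e1]
      exact h2 _ (hmem g hg) _ ⟨hu.1, hmem u hu.2⟩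
    · obtain ⟨m, hm⟩ := h3 (σ • x)
      refine ⟨m, fun g hg hgx => ?_⟩
      change c (σ * g * σ⁻¹) = a g m - m
      have h4 := hm _ (hmem g hg) (by
        rw [smul_smul]
        have : σ * g * σ⁻¹ * σ = σ * g := by group
        rw [this, ← smul_smul, hgx])
      have e2 : σ⁻¹ * (σ * g * σ⁻¹) * σ = g := by group
      simp only [e2] at h4
      exact h4
  · have hle : ((Bsh a H).comap E ⊓ Zsh X (fun g => a (σ⁻¹ * g * σ))
        (H.map (MulAut.conj σ).toMonoidHom) : AddSubgroup (G → M))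
        ≤ Bsh (fun g => a (σ⁻¹ * g * σ)) (H.map (MulAut.conj σ).toMonoidHom) := by
      rintro c ⟨⟨m, hm⟩, -⟩
      refine ⟨m, fun g hg => ?_⟩
      have h4 := hm _ (hmem' g hg)
      have h5 : c (σ * (σ⁻¹ * g * σ) * σ⁻¹) = a (σ⁻¹ * g * σ) m - m := h4
      have e1 : σ * (σ⁻¹ * g * σ) * σ⁻¹ = g := by group
      rw [e1] at h5
      exact h5
    rw [AddSubgroup.relIndex_eq_one.mpr hle]
    exact one_ne_zero

theorem a6 [IsTopologicalGroup G] [CompactSpace G] {H H' : Subgroup G} (hle : H' ≤ H)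
    {a : G → M →+ M} [Finite M]
    (hU : ∃ U : Subgroup G, IsOpen (U : Set G) ∧ U ⊓ H ≤ H') (h : FinSh X a H') :
    FinSh X a H := by
  classical
  unfold FinSh at h ⊢
  obtain ⟨U, hUo, hUH⟩ := hU
  have hfU : Finite (G ⧸ U) := U.quotient_finite_of_isOpen hUo
  have hfH : Finite (H ⧸ H'.subgroupOf H) := by
    have h1 : U.index ≠ 0 := Subgroup.index_ne_zero_of_finite
    have h2 : U.relIndex H ≠ 0 := by
      intro h0
      apply h1
      rw [← Subgroup.relIndex_top_right]
      exact Subgroup.relIndex_eq_zero_of_le_right le_top h0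
    have h3 : (U ⊓ H).relIndex H ≠ 0 := by rwa [Subgroup.inf_relIndex_right]
    have h4 : H'.relIndex H ≠ 0 := fun h0 => h3 (Subgroup.relIndex_eq_zero_of_le_left hUH h0)
    have h5 : (H'.subgroupOf H).FiniteIndex := ⟨h4⟩
    infer_instance
  refine fin_transfer (AddMonoidHom.id _) h ?_ ?_
  · rintro c ⟨h1, ⟨V, hV, h2⟩, h3⟩
    refine ⟨fun g hg k hk => h1 g (hle hg) k (hle hk), ⟨V, hV, fun g hg u hu =>
      h2 g (hle hg) u ⟨hu.1, hle hu.2⟩⟩, fun x => ?_⟩
    obtain ⟨m, hm⟩ := h3 x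
    exact ⟨m, fun g hg => hm g (hle hg)⟩
  · have hch : ∀ c : ((Bsh a H').comap (AddMonoidHom.id _) ⊓ Zsh X a H : AddSubgroup (G → M)),
        ∃ m : M, ∀ g ∈ H', (c : G → M) g = a g m - m := fun c => c.2.1
    choose f hf using hch
    refine fin_of_map (S := M × (H ⧸ H'.subgroupOf H → M))
      (fun c => (f c, fun q => (c : G → M) (q.out : H))) fun x y hxy => ?_
    refine ⟨0, fun g hg => ?_⟩
    have hxy1 : f x = f y := congrArg Prod.fst hxy
    have hxy2 : ∀ q : H ⧸ H'.subgroupOf H, (x : G → M) (q.out : H) = (y : G → M) (q.out : H) :=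
      fun q => congrFun (congrArg Prod.snd hxy) q
    obtain ⟨u, hu⟩ := QuotientGroup.mk_out_eq_mul (H'.subgroupOf H) (⟨g, hg⟩ : H)
    set q : H ⧸ H'.subgroupOf H := ((⟨g, hg⟩ : H) : H ⧸ H'.subgroupOf H) with hq
    have hu' : ((u : H) : G) ∈ H' := u.2
    have hg2 : g = ((q.out : H) : G) * (((u : H) : G))⁻¹ := by
      have := congrArg (Subtype.val) hu
      rw [this]
      change g = g * ((u : H) : G) * (((u : H) : G))⁻¹
      group
    have hinv : (((u : H) : G))⁻¹ ∈ H' := H'.inv_mem hu'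
    have hx := x.2.2.1 ((q.out : H) : G) (q.out : H).2 _ (hle hinv)
    have hy := y.2.2.1 ((q.out : H) : G) (q.out : H).2 _ (hle hinv)
    rw [← hg2] at hx hy
    have hx2 := hf x _ hinv
    have hy2 := hf y _ hinv
    have : (x : G → M) g = (y : G → M) g := by
      rw [hx, hy, hx2, hy2, hxy1, hxy2]
    simp [this]

end Pool.Agent.Helper99.FS
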