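import Pool.Agent.Helper99.FS.A146
import Pool.Agent.Helper21.FS.A3
import Pool.Agent.Helper3.FS.Bridge

/-!
C6b: `sel_iso`, `sel_sub`, `sel_ext`.
-/

open scoped NumberField Pointwise

namespace Pool.Agent.Helper99.FS

open Pool.Agent.Helper58.FS Pool.Agent.Helper58.IQ Pool.Agent.Helper3.FS

theorem finSel_iff {K : Type*} [Field K] {M : Type*} [AddCommGroup M]
    (ρ : GK K →* AddMonoid.End M) (H : Subgroup (GK K)) :
    FinSel ρ H ↔ (selB ρ H).relIndex (selZ ρ H) ≠ 0 := by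
  unfold FinSel Sel AddSubgroup.relIndex
  exact AddSubgroup.index_ne_zero_iff_finite.symm

theorem sel_iso_aux {K : Type*} [Field K] {M N : Type*} [AddCommGroup M] [AddCommGroup N]
    {ρ : GK K →* AddMonoid.End M} {σ : GK K →* AddMonoid.End N} (h : Iso ρ σ)
    (H : Subgroup (GK K)) (hf : FinSel ρ H) : FinSel σ H := by
  obtain ⟨e, he⟩ := h
  rw [finSel_iff] at hf ⊢
  have he' : ∀ g n, e.symm (σ g n) = ρ g (e.symm n) := by
    intro g n
    apply e.injective
    rw [he, e.apply_symm_apply, e.apply_symm_apply]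
  set E : (H → N) →+ (H → M) :=
    { toFun := fun c g => e.symm (c g)
      map_zero' := by funext g; simp
      map_add' := fun c d => by funext g; simp } with hE
  refine fin_transfer E hf ?_ ?_
  · rintro c ⟨h1, h2, h3⟩
    refine ⟨h1.comp e.symm, fun g h => ?_, fun P hP h0 => ?_⟩
    · change e.symm (c (g * h)) = e.symm (c g) + ρ g (e.symm (c h))
      rw [h2, map_add, he']
    · obtain ⟨m, hm⟩ := h3 P hP h0
      refine ⟨e.symm m, fun g hg => ?_⟩
      change e.symm (c g) = ρ g (e.symm m) - e.symm m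
      rw [hm g hg, map_sub, he']
  · have hle : ((selB ρ H).comap E ⊓ selZ σ H : AddSubgroup (H → N)) ≤ selB σ H := by
      rintro c ⟨⟨m, hm⟩, -⟩
      refine ⟨e m, fun g => ?_⟩
      have h4 : e.symm (c g) = ρ g m - m := hm g
      apply e.symm.injective
      rw [h4, map_sub, he', e.symm_apply_apply]
    rw [AddSubgroup.relIndex_eq_one.mpr hle]
    exact one_ne_zero

theorem sel_iso {K : Type*} [Field K] {M N : Type*} [AddCommGroup M] [AddCommGroup N]
    {ρ : GK K →* AddMonoid.End M} {σ : GK K →* AddMonoid.End N} (h : Iso ρ σ)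
    (H : Subgroup (GK K)) : FinSel ρ H ↔ FinSel σ H := by
  refine ⟨sel_iso_aux h H, sel_iso_aux ?_ H⟩
  obtain ⟨e, he⟩ := h
  refine ⟨e.symm, fun g n => ?_⟩
  apply e.injective
  rw [he, e.apply_symm_apply, e.apply_symm_apply]

theorem rep_mul {G : Type*} [Group G] {M : Type*} [AddCommGroup M] (ρ : G →* AddMonoid.End M)
    (g h : G) (x : M) : ρ (g * h) x = ρ g (ρ h x) := by
  rw [map_mul]
  rfl

theorem rep_one {G : Type*} [Group G] {M : Type*} [AddCommGroup M] (ρ : G →* AddMonoid.End M)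
    (x : M) : ρ 1 x = x := by
  rw [map_one]
  rfl

/-- The stabilizer. -/
def stab {G : Type*} [Group G] {M : Type*} [AddCommGroup M] (ρ : G →* AddMonoid.End M) (m : M) :
    Subgroup G where
  carrier := {g | ρ g m = m}
  one_mem' := rep_one ρ m
  mul_mem' := by
    intro g h hg hh
    change ρ (g * h) m = m
    rw [rep_mul, show ρ h m = m from hh]
    exact hg
  inv_mem' := by
    intro g hg
    change ρ g⁻¹ m = m
    have h1 : ρ g m = m := hg
    have h3 := rep_mul ρ g⁻¹ g m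
    rw [inv_mul_cancel, rep_one, h1] at h3
    exact h3.symm

section gal

variable {K : Type*} [Field K] [NumberField K]

omit [NumberField K] in
theorem cont_sub {M : Type*} [AddCommGroup M] {ρ : GK K →* AddMonoid.End M}
    (hρ : ∀ x : M, IsOpen {g : GK K | ρ g x = x}) {N : AddSubgroup M}
    (hN : ∀ g, ∀ x ∈ N, ρ g x ∈ N) (x : N) : IsOpen {g : GK K | subRep ρ N hN g x = x} := by
  have : {g : GK K | subRep ρ N hN g x = x} = {g : GK K | ρ g (x : M) = (x : M)} := by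
    ext g
    simp only [Set.mem_ofPred_eq]
    rw [Subtype.ext_iff]
    rfl
  rw [this]
  exact hρ x

omit [NumberField K] in
theorem cont_quo {M : Type*} [AddCommGroup M] {ρ : GK K →* AddMonoid.End M}
    (hρ : ∀ x : M, IsOpen {g : GK K | ρ g x = x}) {N : AddSubgroup M}
    (hN : ∀ g, ∀ x ∈ N, ρ g x ∈ N) (x : M ⧸ N) :
    IsOpen {g : GK K | quoRep ρ N hN g x = x} := by
  induction x using QuotientAddGroup.induction_on with
  | H m =>
    have hle : stab ρ m ≤ stab (quoRep ρ N hN) (QuotientAddGroup.mk m) := by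
      intro g hg
      change QuotientAddGroup.mk (ρ g m) = QuotientAddGroup.mk m
      rw [show ρ g m = m from hg]
    exact Subgroup.isOpen_mono hle (hρ m)

theorem sel_sub {M : Type*} [AddCommGroup M] [Finite M] (ρ : GK K →* AddMonoid.End M)
    (hρ : ∀ x : M, IsOpen {g : GK K | ρ g x = x}) (N : AddSubgroup M)
    (hN : ∀ g, ∀ x ∈ N, ρ g x ∈ N) (H : Subgroup (GK K)) (h : FinSel ρ H) :
    FinSel (subRep ρ N hN) H := by
  rw [fin_iff _ (cont_sub hρ hN)]
  rw [fin_iff ρ hρ] at h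
  refine a1 (Prm (Kb K)) N.subtype N.subtype_injective ?_ h
  rintro _ ⟨g, -, rfl⟩ n
  rw [extAct_toQ, extAct_toQ]
  rfl

theorem sel_ext_of (p : ℕ) [Fact p.Prime] (hA : ArithHyp (Prm (Kb K)) (Cyc (Kb K) p) p)
    {M : Type*} [AddCommGroup M] [Finite M]
    (ρ : GK K →* AddMonoid.End M) (hρ : ∀ x : M, IsOpen {g : GK K | ρ g x = x})
    (hk : ∃ k : ℕ, ∀ x : M, p ^ k • x = 0) (N : AddSubgroup M)
    (hN : ∀ g, ∀ x ∈ N, ρ g x ∈ N) (L : Subgroup (GK K)) (hL : IsOpen (L : Set (GK K)))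
    (h1 : FinSel (subRep ρ N hN) (L ⊓ Gcyc K p)) (h2 : FinSel (quoRep ρ N hN) (L ⊓ Gcyc K p)) :
    FinSel ρ (L ⊓ Gcyc K p) := by
  rw [fin_iff _ (cont_sub hρ hN)] at h1
  rw [fin_iff _ (cont_quo hρ hN)] at h2
  rw [fin_iff ρ hρ]
  have hmap : ∀ g : GK K, g ∈ Gcyc K p ↔ toQ K g ∈ Cyc (Kb K) p := fun g => Iff.rfl
  have halg : Algebra.IsAlgebraic ℚ (Kb K) := Algebra.IsAlgebraic.trans ℚ K (Kb K)
  have hcl : IsAlgClosure ℚ (Kb K) := ⟨inferInstance, inferInstance⟩
  have hgal : IsGalois ℚ (Kb K) := IsAlgClosure.isGalois ℚ (Kb K)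
  refine Pool.Agent.Helper21.FS.a3 (Prm (Kb K)) hA (H := (L ⊓ Gcyc K p).map (toQ K)) ?_
    ⟨L.map (toQ K), isOpen_map L hL, ?_⟩ (act_ext _ (cont_sub hρ hN) _) (act_ext ρ hρ _)
    (act_ext _ (cont_quo hρ hN) _) hk N.subtype (QuotientAddGroup.mk' N) N.subtype_injective
    (QuotientAddGroup.mk'_surjective N) ?_ ?_ ?_ h1 h2
  · rintro _ ⟨g, hg, rfl⟩
    exact (hmap g).1 hg.2
  · rintro _ ⟨⟨g, hg, rfl⟩, hc⟩
    exact ⟨g, ⟨hg, (hmap g).2 hc⟩, rfl⟩
  · intro m
    constructor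
    · intro hm
      exact ⟨⟨m, (QuotientAddGroup.eq_zero_iff m).1 hm⟩, rfl⟩
    · rintro ⟨n, rfl⟩
      exact (QuotientAddGroup.eq_zero_iff _).2 n.2
  · rintro _ ⟨g, -, rfl⟩ n
    rw [extAct_toQ, extAct_toQ]
    rfl
  · rintro _ ⟨g, -, rfl⟩ m
    rw [extAct_toQ, extAct_toQ]
    rfl

end gal

end Pool.Agent.Helper99.FS
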