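import Pool.Agent.Helper58.FS.CS
import Mathlib.Algebra.Category.Grp.Injective
import Mathlib.NumberTheory.Padics.RingHoms

/-!
# Pontryagin duality for `p`-primary groups of finite corank
-/

namespace Pool.Agent.Helper99.FS.Pd

open Pool.Agent.Helper58.FS

variable {p : ℕ} [Fact p.Prime]

theorem pne : (p : ℚ_[p]) ≠ 0 := by exact_mod_cast (Fact.out : p.Prime).ne_zero

theorem mk_zero {q : ℚ_[p]} : (Submodule.Quotient.mk q : QZ p) = 0 ↔ ‖q‖ ≤ 1 := by
  rw [Submodule.Quotient.mk_eq_zero, LinearMap.mem_range]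
  constructor
  · rintro ⟨a, rfl⟩
    exact a.2
  · intro h
    exact ⟨⟨q, h⟩, rfl⟩

/-- The class of `p^{-n}`. -/
noncomputable def u (p : ℕ) [Fact p.Prime] (n : ℕ) : QZ p :=
  Submodule.Quotient.mk ((p : ℚ_[p]) ^ n)⁻¹

theorem p_u (n : ℕ) : p • u p (n + 1) = u p n := by
  unfold u
  rw [← Submodule.Quotient.mk_smul]
  congr 1
  rw [nsmul_eq_mul, pow_succ, mul_inv, mul_comm ((p : ℚ_[p]) ^ n)⁻¹, ← mul_assoc,
    mul_inv_cancel₀ pne, one_mul]

theorem pn_u (n : ℕ) : p ^ n • u p n = 0 := by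
  unfold u
  rw [← Submodule.Quotient.mk_smul, mk_zero, nsmul_eq_mul]
  push_cast
  rw [mul_inv_cancel₀ (pow_ne_zero _ pne), norm_one]

theorem smul_u {c : ℤ_[p]} {n : ℕ} : c • u p n = 0 ↔ c ∈ Ideal.span {(p : ℤ_[p]) ^ n} := by
  unfold u
  rw [← Submodule.Quotient.mk_smul, mk_zero, ← PadicInt.norm_le_pow_iff_mem_span_pow]
  have h1 : c • ((p : ℚ_[p]) ^ n)⁻¹ = (c : ℚ_[p]) * ((p : ℚ_[p]) ^ n)⁻¹ := rfl
  rw [h1, norm_mul, norm_inv, norm_pow, Padic.norm_p]
  have hp : (0 : ℝ) < (p : ℝ) := by exact_mod_cast (Fact.out : p.Prime).pos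
  have h2 : ((p : ℝ)⁻¹ ^ n)⁻¹ = (p : ℝ) ^ n := by rw [inv_pow, inv_inv]
  rw [h2, PadicInt.norm_def, zpow_neg, zpow_natCast]
  rw [← one_div, le_div_iff₀ (pow_pos hp n)]

theorem tors {n : ℕ} {y : QZ p} (h : p ^ n • y = 0) : ∃ m, m < p ^ n ∧ y = m • u p n := by
  obtain ⟨q, rfl⟩ := Submodule.Quotient.mk_surjective _ y
  rw [← Submodule.Quotient.mk_smul, mk_zero, nsmul_eq_mul] at h
  push_cast at h
  let a : ℤ_[p] := ⟨(p : ℚ_[p]) ^ n * q, h⟩
  refine ⟨a.appr n, a.appr_lt n, ?_⟩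
  have h1 : (a - (a.appr n : ℤ_[p])) • u p n = 0 := smul_u.mpr (a.appr_spec n)
  have h2 : a • u p n = Submodule.Quotient.mk q := by
    unfold u
    rw [← Submodule.Quotient.mk_smul]
    congr 1
    change (p : ℚ_[p]) ^ n * q * ((p : ℚ_[p]) ^ n)⁻¹ = q
    rw [mul_comm, ← mul_assoc, inv_mul_cancel₀ (pow_ne_zero _ pne), one_mul]
  rw [sub_smul, sub_eq_zero, h2, Nat.cast_smul_eq_nsmul] at h1
  exact h1

theorem prim (y : QZ p) : ∃ n : ℕ, p ^ n • y = 0 := by
  obtain ⟨q, rfl⟩ := Submodule.Quotient.mk_surjective _ y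
  have hp : (1 : ℝ) < (p : ℝ) := by exact_mod_cast (Fact.out : p.Prime).one_lt
  obtain ⟨n, hn⟩ := pow_unbounded_of_one_lt ‖q‖ hp
  refine ⟨n, ?_⟩
  rw [← Submodule.Quotient.mk_smul, mk_zero, nsmul_eq_mul]
  push_cast
  rw [norm_mul, norm_pow, Padic.norm_p, inv_pow, inv_mul_le_iff₀ (pow_pos (by linarith) n),
    mul_one]
  exact hn.le

/-- `ℚ_p/ℤ_p` is divisible. -/
theorem div_surj {n : ℤ} (hn : n ≠ 0) : Function.Surjective (fun y : QZ p => n • y) := by
  intro y
  obtain ⟨q, rfl⟩ := Submodule.Quotient.mk_surjective _ y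
  refine ⟨Submodule.Quotient.mk ((n : ℚ_[p])⁻¹ * q), ?_⟩
  change n • (Submodule.Quotient.mk ((n : ℚ_[p])⁻¹ * q) : QZ p) = _
  rw [← Submodule.Quotient.mk_smul]
  congr 1
  rw [zsmul_eq_mul, ← mul_assoc, mul_inv_cancel₀ (Int.cast_ne_zero.mpr hn), one_mul]

theorem baer : Module.Baer ℤ (QZ p) := by
  let _ : DivisibleBy (QZ p) ℤ := divisibleByOfSMulRightSurj (QZ p) ℤ (fun hn => div_surj hn)
  exact Module.Baer.of_divisible (QZ p)

theorem ext_hom {A B : Type*} [AddCommGroup A] [AddCommGroup B] (i : A →+ B)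
    (hi : Function.Injective i) (f : A →+ QZ p) : ∃ g : B →+ QZ p, ∀ x, g (i x) = f x := by
  obtain ⟨g, hg⟩ := (baer (p := p)).extension_property_addMonoidHom i hi f
  exact ⟨g, fun x => DFunLike.congr_fun hg x⟩

/-- A homomorphism which does not vanish at a given element of order `p`. -/
theorem sep {R : Type*} [AddCommGroup R] {x : R} (hx : x ≠ 0) (hp : p • x = 0) :
    ∃ f : R →+ QZ p, f x ≠ 0 := by
  have hc : ((p : ℕ) : ℤ) • x = 0 := by rw [natCast_zsmul]; exact hp
  let i : ZMod p →+ R := ZMod.lift p ⟨zmultiplesHom R x, by simpa using hc⟩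
  let j : ZMod p →+ QZ p := ZMod.lift p ⟨zmultiplesHom (QZ p) (u p 1), by
    have := pn_u (p := p) 1
    rw [pow_one] at this
    simpa using this⟩
  have hi1 : i 1 = x := by
    have := ZMod.lift_coe p (A := R) ⟨zmultiplesHom R x, by simpa using hc⟩ 1
    simpa using this
  have hj1 : j 1 = u p 1 := by
    have := ZMod.lift_coe p (A := QZ p) ⟨zmultiplesHom (QZ p) (u p 1), by
      have := pn_u (p := p) 1
      rw [pow_one] at this
      simpa using this⟩ 1
    simpa using this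
  have hu : u p 1 ≠ 0 := by
    intro h
    have h1 : (1 : ℤ_[p]) • u p 1 = 0 := by rw [one_smul]; exact h
    rw [smul_u, pow_one, Ideal.mem_span_singleton] at h1
    exact PadicInt.prime_p.not_isUnit (isUnit_of_dvd_one h1)
  have hinj : Function.Injective i := by
    rw [injective_iff_map_eq_zero]
    intro a ha
    by_contra hne
    apply hx
    have h1 : i (a⁻¹ * a) = 0 := by
      obtain ⟨m, hm⟩ := ZMod.natCast_zmod_surjective (a⁻¹)
      rw [← hm, ← nsmul_eq_mul, map_nsmul, ha, nsmul_zero]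
    rw [inv_mul_cancel₀ hne, hi1] at h1
    exact h1
  obtain ⟨g, hg⟩ := ext_hom i hinj j
  refine ⟨g, ?_⟩
  rw [← hi1, hg, hj1]
  exact hu

theorem fin_tors : Finite {y : QZ p // p • y = 0} := by
  have : Set.Finite {y : QZ p | p • y = 0} := by
    refine ((Set.finite_Iio p).image (fun m : ℕ => m • u p 1)).subset ?_
    intro y hy
    obtain ⟨m, hm, rfl⟩ := tors (p := p) (n := 1) (y := y) (by rw [pow_one]; exact hy)
    rw [pow_one] at hm
    exact ⟨m, hm, rfl⟩
  exact this.to_subtype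

/-- An endomorphism of `ℚ_p/ℤ_p` is the multiplication by a `p`-adic integer. -/
theorem endo (f : QZ p →+ QZ p) : ∃ c : ℤ_[p], ∀ y, f y = c • y := by
  have h1 : ∀ n, ∃ m : ℕ, f (u p n) = m • u p n := by
    intro n
    obtain ⟨m, -, hm⟩ := tors (p := p) (n := n) (y := f (u p n)) (by
      rw [← map_nsmul, pn_u, map_zero])
    exact ⟨m, hm⟩
  choose m hm using h1
  have h2 : ∀ n, (m (n + 1) : ℤ_[p]) - m n ∈ Ideal.span {(p : ℤ_[p]) ^ n} := by
    intro n
    rw [← smul_u, sub_smul, Nat.cast_smul_eq_nsmul, Nat.cast_smul_eq_nsmul, sub_eq_zero,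
      ← hm n, ← p_u n, smul_comm, ← hm (n + 1), map_nsmul]
  have h3 : ∀ n k, (m (n + k) : ℤ_[p]) - m n ∈ Ideal.span {(p : ℤ_[p]) ^ n} := by
    intro n k
    induction k with
    | zero => simp
    | succ k ih =>
      have h4 := h2 (n + k)
      have h5 : Ideal.span {(p : ℤ_[p]) ^ (n + k)} ≤ Ideal.span {(p : ℤ_[p]) ^ n} := by
        rw [Ideal.span_singleton_le_span_singleton]
        exact pow_dvd_pow _ (Nat.le_add_right _ _)
      have h6 := Ideal.add_mem _ (h5 h4) ih
      rw [← add_assoc]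
      simpa using h6
  have hsmod : ∀ {k n : ℕ}, k ≤ n → (m k : ℤ_[p]) ≡ (m n : ℤ_[p])
      [SMOD (IsLocalRing.maximalIdeal ℤ_[p]) ^ k • (⊤ : Submodule ℤ_[p] ℤ_[p])] := by
    intro k n hkn
    obtain ⟨l, rfl⟩ := Nat.exists_eq_add_of_le hkn
    rw [SModEq.comm, SModEq.sub_mem, PadicInt.maximalIdeal_eq_span_p, Ideal.span_singleton_pow,
      smul_eq_mul, Ideal.mul_top]
    exact h3 k l
  obtain ⟨c, hc⟩ := IsPrecomplete.prec' (I := IsLocalRing.maximalIdeal ℤ_[p]) (M := ℤ_[p])
    (fun n => (m n : ℤ_[p])) hsmod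
  refine ⟨c, fun y => ?_⟩
  obtain ⟨n, hn⟩ := prim y
  obtain ⟨k, -, rfl⟩ := tors hn
  have h7 := hc n
  rw [SModEq.comm, SModEq.sub_mem, PadicInt.maximalIdeal_eq_span_p, Ideal.span_singleton_pow,
      smul_eq_mul, Ideal.mul_top, ← smul_u, sub_smul, Nat.cast_smul_eq_nsmul, ← hm,
      sub_eq_zero] at h7
  rw [map_nsmul, ← h7, smul_comm]

theorem smul_app {R : Type*} [AddCommGroup R] (c : ℤ_[p]) (f : R →+ QZ p) (x : R) :
    (c • f) x = c • f x := rfl

omit [Fact p.Prime] in
/-- A homomorphism of `p`-primary groups is injective if it is injective on the elements killed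
by `p`. -/
theorem inj_of {R S : Type*} [AddCommGroup R] [AddCommGroup S]
    (hR : ∀ x : R, ∃ n : ℕ, p ^ n • x = 0) (F : R →+ S)
    (h : ∀ x, p • x = 0 → F x = 0 → x = 0) : Function.Injective F := by
  rw [injective_iff_map_eq_zero]
  have key : ∀ n : ℕ, ∀ x : R, p ^ n • x = 0 → F x = 0 → x = 0 := by
    intro n
    induction n with
    | zero =>
      intro x hx _
      simpa using hx
    | succ n ih =>
      intro x hx hF
      apply h x _ hF
      apply ih (p • x)
      · rw [← mul_nsmul', ← pow_succ]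
        exact hx
      · rw [map_nsmul, hF, nsmul_zero]
  intro x hF
  obtain ⟨n, hn⟩ := hR x
  exact key n x hn hF

theorem pd {R : Type*} [AddCommGroup R] (hR : ∀ x : R, ∃ n : ℕ, p ^ n • x = 0) :
    Module.Finite ℤ_[p] (R →+ QZ p) ↔ Finite {x : R // p • x = 0} := by
  constructor
  · rintro ⟨S, hS⟩
    have hfin : Finite {y : QZ p // p • y = 0} := fin_tors
    let E : {x : R // p • x = 0} → (S → {y : QZ p // p • y = 0}) := fun x f =>
      ⟨(f : R →+ QZ p) x.1, by rw [← map_nsmul, x.2, map_zero]⟩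
    apply Finite.of_injective E
    intro x y hxy
    by_contra hne
    have hne' : (x : R) - y ≠ 0 := fun h => hne (Subtype.ext (sub_eq_zero.mp h))
    obtain ⟨f, hf⟩ := sep (p := p) hne' (by rw [nsmul_sub, x.2, y.2, sub_zero])
    apply hf
    have h1 : f ∈ Submodule.span ℤ_[p] (S : Set (R →+ QZ p)) := by rw [hS]; trivial
    induction h1 using Submodule.span_induction with
    | mem g hg =>
      have := congrArg Subtype.val (congrFun hxy ⟨g, hg⟩)
      change g x.1 = g y.1 at this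
      rw [map_sub, this, sub_self]
    | zero => rfl
    | add a b _ _ ha hb =>
      rw [AddMonoidHom.add_apply]
      by_cases h2 : a ((x : R) - y) = 0
      · by_cases h3 : b ((x : R) - y) = 0
        · rw [h2, h3, add_zero]
        · exact absurd (hb h3) h3
      · exact absurd (ha h2) h2
    | smul c a _ ha =>
      rw [smul_app]
      by_cases h2 : a ((x : R) - y) = 0
      · rw [h2, smul_zero]
      · exact absurd (ha h2) h2
  · intro hfin
    classical
    have hfin' := Fintype.ofFinite {x : R // p • x = 0}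
    have hsep : ∀ x : {x : R // p • x = 0}, ∃ f : R →+ QZ p, x.1 ≠ 0 → f x.1 ≠ 0 := by
      intro x
      by_cases hx : x.1 = 0
      · exact ⟨0, fun h => absurd hx h⟩
      · obtain ⟨f, hf⟩ := sep (p := p) hx x.2
        exact ⟨f, fun _ => hf⟩
    choose f hf using hsep
    let F : R →+ ({x : R // p • x = 0} → QZ p) := AddMonoidHom.mk' (fun y x => f x y) (by
      intro a b
      funext x
      exact map_add _ _ _)
    have hF : Function.Injective F := by
      refine inj_of hR F ?_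
      intro x hx hFx
      by_contra hne
      exact hf ⟨x, hx⟩ hne (congrFun hFx ⟨x, hx⟩)
    refine ⟨⟨Finset.univ.image f, ?_⟩⟩
    rw [eq_top_iff]
    rintro g -
    obtain ⟨G, hG⟩ := ext_hom F hF g
    have h1 : ∀ x : {x : R // p • x = 0}, ∃ c : ℤ_[p], ∀ y : QZ p,
        G (Pi.single x y) = c • y := by
      intro x
      exact endo (G.comp (AddMonoidHom.single (fun _ : {x : R // p • x = 0} => QZ p) x))
    choose c hc using h1
    have h2 : g = ∑ x, c x • f x := by
      ext y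
      rw [← hG y, AddMonoidHom.finsetSum_apply]
      have h3 : F y = ∑ x, Pi.single x (f x y) := (Finset.univ_sum_single (F y)).symm
      rw [h3, map_sum]
      refine Finset.sum_congr rfl fun x _ => ?_
      rw [hc]
      rfl
    rw [h2]
    refine Submodule.sum_mem _ fun x _ => Submodule.smul_mem _ _ (Submodule.subset_span ?_)
    simp

end Pool.Agent.Helper99.FS.Pd
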